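import Pool.Agent.H2.FcD
namespace Pool.Agent.Results.MP_9feecb_co.Stable
open Pool.Agent.H2.Fc

theorem result : ∀ k ≥ 3, ∀ t : ℕ, ∃ n0 : ℕ, ∀ n ≥ n0, ∀ G : SimpleGraph (Fin n),
    fr k G < fr k (star n t) →
      ∃ A : Set (Fin n), Within t G (cb A) ∨ Within t Gᶜ (cb A) := by
  intro k hk t
  obtain ⟨j, rfl⟩ : ∃ j, k = j + 3 := ⟨k - 3, by omega⟩
  exact main j t

end Pool.Agent.Results.MP_9feecb_co.Stable
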